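import Mathlib
import Pool.Agent.H43R2.Cplx.EMeas

set_option autoImplicit false

/-!
# Linear forms in `1`, `e` and a third number: elimination
-/

namespace Pool.Agent.W2helper71.LF

open Real

/-- the linear form -/
noncomputable def L (θ : ℝ) (a b c : ℤ) : ℝ := a + b * exp 1 + c * θ

/-- explicit irrationality measure of `e` for integer linear forms `A + B e` with `|B| ≤ K`. -/
theorem low {A B : ℤ} {K : ℝ} (hK : 1 ≤ K) (hB : |(B : ℝ)| ≤ K) (h : ¬ (A = 0 ∧ B = 0)) :
    1 ≤ 8 * K * (4 * logb 2 (8 * K) + 3) * |(A : ℝ) + B * exp 1| := by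
  have hK0 : 0 < K := by linarith
  have hlog : 3 ≤ logb 2 (8 * K) := by
    rw [Real.le_logb_iff_rpow_le (by norm_num) (by positivity)]
    norm_num
    exact hK
  by_cases hB0 : B = 0
  · have hA0 : A ≠ 0 := fun h0 => h ⟨h0, hB0⟩
    have h1 : (1 : ℝ) ≤ |(A : ℝ)| := by exact_mod_cast Int.one_le_abs hA0
    rw [hB0]
    simp only [Int.cast_zero, zero_mul, add_zero]
    have h2 : (1 : ℝ) ≤ 8 * K * (4 * logb 2 (8 * K) + 3) := by nlinarith
    calc (1 : ℝ) = 1 * 1 := by ring
      _ ≤ 8 * K * (4 * logb 2 (8 * K) + 3) * |(A : ℝ)| :=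
          mul_le_mul h2 h1 (by norm_num) (by linarith)
  · -- reduce to a positive coefficient
    have key : ∀ (Q : ℕ) (m : ℤ), 1 ≤ Q → (Q : ℝ) ≤ K →
        1 ≤ 8 * K * (4 * logb 2 (8 * K) + 3) * |(Q : ℝ) * exp 1 - m| := by
      intro Q m hQ hQK
      obtain ⟨n, hn, hlow⟩ := Pool.Agent.H43R2.Cplx.EMeas.lower Q hQ m
      have hQ0 : (0 : ℝ) < Q := by exact_mod_cast hQ
      have h1 : (n : ℝ) ≤ logb 2 (8 * K) := by
        rw [Real.le_logb_iff_rpow_le (by norm_num) (by positivity)]
        rw [Real.rpow_natCast]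
        have : ((2 : ℝ) ^ n) < 8 * Q := by exact_mod_cast hn
        nlinarith
      have h2 : (0 : ℝ) ≤ n := Nat.cast_nonneg n
      rw [div_le_iff₀ (by positivity)] at hlow
      have h3 : 8 * (4 * (n : ℝ) + 3) * Q ≤ 8 * K * (4 * logb 2 (8 * K) + 3) := by
        have : (4 * (n : ℝ) + 3) * Q ≤ (4 * logb 2 (8 * K) + 3) * K := by
          apply mul_le_mul _ hQK hQ0.le _
          · linarith
          · linarith
        linarith
      calc (1 : ℝ) ≤ |(Q : ℝ) * exp 1 - m| * (8 * (4 * (n : ℝ) + 3) * Q) := hlow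
        _ ≤ |(Q : ℝ) * exp 1 - m| * (8 * K * (4 * logb 2 (8 * K) + 3)) :=
            mul_le_mul_of_nonneg_left h3 (abs_nonneg _)
        _ = _ := by ring
    have hQ1 : 1 ≤ B.natAbs := Int.natAbs_pos.2 hB0
    have hcast : ((B.natAbs : ℕ) : ℝ) = |(B : ℝ)| := by
      rw [Nat.cast_natAbs, Int.cast_abs]
    rcases le_or_gt 0 B with hpos | hneg
    · have h1 := key B.natAbs (-A) hQ1 (by rw [hcast]; exact hB)
      have h2 : (0 : ℝ) ≤ (B : ℝ) := by exact_mod_cast hpos
      rw [hcast, abs_of_nonneg h2] at h1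
      push_cast at h1
      have e : (B : ℝ) * exp 1 - -(A : ℝ) = A + B * exp 1 := by ring
      rwa [e] at h1
    · have h1 := key B.natAbs A hQ1 (by rw [hcast]; exact hB)
      have h2 : (B : ℝ) < 0 := by exact_mod_cast hneg
      rw [hcast, abs_of_neg h2] at h1
      have e : -(B : ℝ) * exp 1 - (A : ℝ) = -(A + B * exp 1) := by ring
      rwa [e, abs_neg] at h1

/-- Two integer vectors of heights at most `X ≤ Y`, with small values of the form, which are not
proportional. -/
theorem elim {θ X Y x y : ℝ} (hX : 1 ≤ X) (hXY : X ≤ Y) {a b c a' b' c' : ℤ}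
    (ha : |(a : ℝ)| ≤ X) (hb : |(b : ℝ)| ≤ X) (hc : |(c : ℝ)| ≤ X)
    (ha' : |(a' : ℝ)| ≤ Y) (hb' : |(b' : ℝ)| ≤ Y) (hc' : |(c' : ℝ)| ≤ Y)
    (hx : |L θ a b c| ≤ x) (hy : |L θ a' b' c'| ≤ y)
    (hne : ¬ (a * b' = a' * b ∧ a * c' = a' * c ∧ b * c' = b' * c)) :
    1 ≤ 16 * X * Y * (4 * logb 2 (16 * X * Y) + 3) * (Y * x + X * y) := by
  have hY : 1 ≤ Y := hX.trans hXY
  have hX0 : 0 < X := by linarith
  have hY0 : 0 < Y := by linarith
  have hx0 : 0 ≤ x := (abs_nonneg _).trans hx
  have hy0 : 0 ≤ y := (abs_nonneg _).trans hy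
  have hK : (1 : ℝ) ≤ 2 * X * Y := by nlinarith
  have hlogp : 3 ≤ logb 2 (8 * (2 * X * Y)) := by
    rw [Real.le_logb_iff_rpow_le (by norm_num) (by positivity)]
    norm_num
    nlinarith
  have e0 : 8 * (2 * X * Y) = 16 * X * Y := by ring
  by_cases hAB : c' * a - c * a' = 0 ∧ c' * b - c * b' = 0
  · -- then `c = c' = 0`
    by_cases hcc : c = 0 ∧ c' = 0
    · obtain ⟨hc0, hc0'⟩ := hcc
      have hab : ¬ (a = 0 ∧ b = 0) := by
        rintro ⟨rfl, rfl⟩
        exact hne (by simp [hc0])
      have hL : L θ a b c = a + b * exp 1 := by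
        simp [L, hc0]
      have h1 := low (A := a) (B := b) (K := 2 * X * Y) hK (by nlinarith) hab
      rw [← hL] at h1
      have h2 : |L θ a b c| ≤ Y * x + X * y := by nlinarith
      rw [e0] at h1
      calc (1 : ℝ) ≤ _ := h1
        _ ≤ 16 * X * Y * (4 * logb 2 (16 * X * Y) + 3) * (Y * x + X * y) := by
            apply mul_le_mul_of_nonneg_left h2
            rw [e0] at hlogp
            positivity
    · exfalso
      apply hne
      have h1 : a * c' = a' * c := by linarith [hAB.1]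
      have h2 : b * c' = b' * c := by linarith [hAB.2]
      refine ⟨?_, h1, h2⟩
      by_cases hc0 : c = 0
      · have hc' : c' ≠ 0 := fun h => hcc ⟨hc0, h⟩
        rw [hc0, mul_zero] at h1 h2
        have ha0 : a = 0 := by
          rcases mul_eq_zero.1 h1 with h | h
          · exact h
          · exact absurd h hc'
        have hb0 : b = 0 := by
          rcases mul_eq_zero.1 h2 with h | h
          · exact h
          · exact absurd h hc'
        rw [ha0, hb0]; ring
      · have : c * (a * b') = c * (a' * b) := by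
          calc c * (a * b') = a * (b' * c) := by ring
            _ = a * (b * c') := by rw [h2]
            _ = b * (a * c') := by ring
            _ = b * (a' * c) := by rw [h1]
            _ = c * (a' * b) := by ring
        exact mul_left_cancel₀ hc0 this
  · have h1 := low (A := c' * a - c * a') (B := c' * b - c * b') (K := 2 * X * Y) hK ?_ hAB
    · have h2 : |(((c' * a - c * a' : ℤ) : ℝ)) + ((c' * b - c * b' : ℤ) : ℝ) * exp 1| ≤
          Y * x + X * y := by
        have e1 : (((c' * a - c * a' : ℤ) : ℝ)) + ((c' * b - c * b' : ℤ) : ℝ) * exp 1 =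
            c' * L θ a b c - c * L θ a' b' c' := by
          simp only [L]; push_cast; ring
        rw [e1]
        refine (abs_sub _ _).trans ?_
        rw [abs_mul, abs_mul]
        apply add_le_add
        · exact mul_le_mul hc' hx (abs_nonneg _) hY0.le
        · exact mul_le_mul hc hy (abs_nonneg _) hX0.le
      rw [e0] at h1 hlogp
      calc (1 : ℝ) ≤ _ := h1
        _ ≤ 16 * X * Y * (4 * logb 2 (16 * X * Y) + 3) * (Y * x + X * y) := by
            apply mul_le_mul_of_nonneg_left h2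
            positivity
    · push_cast
      refine (abs_sub _ _).trans ?_
      rw [abs_mul, abs_mul]
      have h3 : |(c' : ℝ)| * |(b : ℝ)| ≤ Y * X := mul_le_mul hc' hb (abs_nonneg _) hY0.le
      have h4 : |(c : ℝ)| * |(b' : ℝ)| ≤ X * Y := mul_le_mul hc hb' (abs_nonneg _) hX0.le
      linarith

end Pool.Agent.W2helper71.LF
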