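import Mathlib
import Pool.Agent.W2helper71.LF.Basic

set_option autoImplicit false

/-!
# Small values of the linear form `a + b e + c θ` at integer vectors

* `part1`: for every `H ≥ 1` all integer vectors of height at most `H` at which the form is very small
  lie on one line through the origin.
* `part2`: the number of good approximations.

The proof: elimination of `θ` from two independent vectors gives a small nonzero integer linear form in
`1` and `e`; for these we use an explicit irrationality measure of `e` (starting file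
`Pool/Agent/H43R2/Cplx/EMeas.lean`).
-/

namespace Pool.Agent.W2helper71.LF


open Real Filter Topology

/-- the height `max (|a|, |b|, |c|)` of the integer vector `v = (a, b, c)` -/
def height (v : Fin 3 → ℤ) : ℕ := Finset.univ.sup fun i => (v i).natAbs

/-- the value `a + b e + c θ` of the form at `v = (a, b, c)` -/
noncomputable def form (θ : ℝ) (v : Fin 3 → ℤ) : ℝ := v 0 + v 1 * Real.exp 1 + v 2 * θ

/-- the only common divisors of the coordinates are `1` and `-1` -/
def Primitive (v : Fin 3 → ℤ) : Prop := ∀ d : ℤ, (∀ i, d ∣ v i) → IsUnit d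

lemma abs_le_height (v : Fin 3 → ℤ) (i : Fin 3) : |(v i : ℝ)| ≤ height v := by
  have h : (v i).natAbs ≤ height v := Finset.le_sup (f := fun i => (v i).natAbs) (Finset.mem_univ i)
  have h2 : (((v i).natAbs : ℕ) : ℝ) ≤ height v := by exact_mod_cast h
  rwa [Nat.cast_natAbs, Int.cast_abs] at h2

lemma form_eq (θ : ℝ) (v : Fin 3 → ℤ) : form θ v = L θ (v 0) (v 1) (v 2) := rfl

/-- proportional vectors -/
def Prop3 (u v : Fin 3 → ℤ) : Prop :=
  u 0 * v 1 = v 0 * u 1 ∧ u 0 * v 2 = v 0 * u 2 ∧ u 1 * v 2 = v 1 * u 2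

lemma Prop3.all {u v : Fin 3 → ℤ} (h : Prop3 u v) (i j : Fin 3) : u i * v j = v i * u j := by
  obtain ⟨h1, h2, h3⟩ := h
  fin_cases i <;> fin_cases j <;> simp <;> linarith

lemma prop_smul {u v : Fin 3 → ℤ} (h : Prop3 u v) : ∃ s t : ℤ, (s ≠ 0 ∨ t ≠ 0) ∧ s • u = t • v := by
  by_cases hu : ∃ i, u i ≠ 0
  · obtain ⟨i, hi⟩ := hu
    refine ⟨v i, u i, Or.inr hi, ?_⟩
    funext j
    simp only [Pi.smul_apply, smul_eq_mul]
    exact (h.all i j).symm
  · push Not at hu
    refine ⟨1, 0, Or.inl one_ne_zero, ?_⟩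
    funext j
    simp [hu j]

lemma prop_prim {u v : Fin 3 → ℤ} (h : Prop3 u v) (hu : Primitive u) (hv : Primitive v) :
    v = u ∨ v = -u := by
  -- Bezout
  obtain ⟨r, hr⟩ : ∃ r : Fin 3 → ℤ, r 0 * u 0 + r 1 * u 1 + r 2 * u 2 = 1 := by
    have h1 : IsUnit (((Int.gcd (u 0) (Int.gcd (u 1) (u 2) : ℤ) : ℕ) : ℤ)) := by
      apply hu
      intro i
      have e1 : ((Int.gcd (u 0) (Int.gcd (u 1) (u 2) : ℤ) : ℕ) : ℤ) ∣ u 0 := Int.gcd_dvd_left ..
      have e2 : ((Int.gcd (u 0) (Int.gcd (u 1) (u 2) : ℤ) : ℕ) : ℤ) ∣ (Int.gcd (u 1) (u 2) : ℤ) :=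
        Int.gcd_dvd_right ..
      fin_cases i
      · exact e1
      · exact e2.trans (Int.gcd_dvd_left ..)
      · exact e2.trans (Int.gcd_dvd_right ..)
    have h2 : ((Int.gcd (u 0) (Int.gcd (u 1) (u 2) : ℤ) : ℕ) : ℤ) = 1 := by
      rcases Int.isUnit_iff.1 h1 with h3 | h3
      · exact h3
      · have := Int.natCast_nonneg (Int.gcd (u 0) (Int.gcd (u 1) (u 2) : ℤ))
        omega
    have h3 := Int.gcd_eq_gcd_ab (u 0) (Int.gcd (u 1) (u 2) : ℤ)
    have h4 := Int.gcd_eq_gcd_ab (u 1) (u 2)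
    rw [h2] at h3
    generalize Int.gcdA (u 0) (Int.gcd (u 1) (u 2) : ℤ) = p at h3
    generalize Int.gcdB (u 0) (Int.gcd (u 1) (u 2) : ℤ) = q at h3
    rw [h4] at h3
    refine ⟨![p, q * Int.gcdA (u 1) (u 2), q * Int.gcdB (u 1) (u 2)], ?_⟩
    simp only [Matrix.cons_val_zero, Matrix.cons_val_one, Matrix.cons_val]
    linarith
  set t : ℤ := r 0 * v 0 + r 1 * v 1 + r 2 * v 2 with ht
  have hvt : ∀ j, v j = t * u j := by
    intro j
    have e0 := h.all 0 j
    have e1 := h.all 1 j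
    have e2 := h.all 2 j
    calc v j = (r 0 * u 0 + r 1 * u 1 + r 2 * u 2) * v j := by rw [hr, one_mul]
      _ = r 0 * (u 0 * v j) + r 1 * (u 1 * v j) + r 2 * (u 2 * v j) := by ring
      _ = r 0 * (v 0 * u j) + r 1 * (v 1 * u j) + r 2 * (v 2 * u j) := by rw [e0, e1, e2]
      _ = t * u j := by rw [ht]; ring
  have htu : IsUnit t := hv t fun i => ⟨u i, hvt i⟩
  rcases Int.isUnit_iff.1 htu with h1 | h1
  · left; funext j; rw [hvt j, h1, one_mul]
  · right; funext j; rw [hvt j, h1, Pi.neg_apply]; ring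

/-- non proportional vectors -/
lemma key {θ X Y x y : ℝ} (hX : 1 ≤ X) (hXY : X ≤ Y) {u v : Fin 3 → ℤ} (hu : (height u : ℝ) ≤ X)
    (hv : (height v : ℝ) ≤ Y) (hx : |form θ u| ≤ x) (hy : |form θ v| ≤ y) (hne : ¬ Prop3 u v) :
    1 ≤ 16 * X * Y * (4 * logb 2 (16 * X * Y) + 3) * (Y * x + X * y) :=
  elim hX hXY ((abs_le_height u 0).trans hu) ((abs_le_height u 1).trans hu)
    ((abs_le_height u 2).trans hu) ((abs_le_height v 0).trans hv) ((abs_le_height v 1).trans hv)
    ((abs_le_height v 2).trans hv) hx hy hne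

lemma log16 {H : ℝ} (hH : 1 ≤ H) : 4 * logb 2 (16 * H * H) + 3 = 8 * logb 2 H + 19 := by
  have h0 : (0 : ℝ) < H := by linarith
  have h1 : logb 2 (16 * H * H) = 4 + 2 * logb 2 H := by
    rw [Real.logb_mul (by positivity) (by positivity), Real.logb_mul (by norm_num) (by positivity)]
    have : logb 2 (16 : ℝ) = 4 := by
      rw [show (16 : ℝ) = 2 ^ (4 : ℝ) by norm_num]
      exact Real.logb_rpow (by norm_num) (by norm_num)
    rw [this]; ring
  rw [h1]; ring

theorem part1 (θ H : ℝ) (hH : 1 ≤ H) (u v : Fin 3 → ℤ) (hu : (height u : ℝ) ≤ H)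
    (hv : (height v : ℝ) ≤ H) (hu' : |form θ u| < 1 / (32 * H ^ 3 * (8 * logb 2 H + 19)))
    (hv' : |form θ v| < 1 / (32 * H ^ 3 * (8 * logb 2 H + 19))) :
    Prop3 u v := by
  by_contra hne
  have h0 : (0 : ℝ) < H := by linarith
  have hlog : 0 ≤ logb 2 H := Real.logb_nonneg (by norm_num) hH
  set M : ℝ := max |form θ u| |form θ v| with hM
  have h1 := key hH le_rfl hu hv (le_max_left _ _ : _ ≤ M) (le_max_right _ _ : _ ≤ M) hne
  rw [log16 hH] at h1
  have hM1 : M < 1 / (32 * H ^ 3 * (8 * logb 2 H + 19)) := max_lt hu' hv'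
  rw [lt_div_iff₀ (by positivity)] at hM1
  have e : 16 * H * H * (8 * logb 2 H + 19) * (H * M + H * M) =
      M * (32 * H ^ 3 * (8 * logb 2 H + 19)) := by ring
  rw [e] at h1
  linarith

/-- the threshold -/
lemma thr {w κ : ℝ} (hκ : 1 < κ) (hw : κ < (w - 1) / 2) : ∃ X₀ : ℝ, 3 ≤ X₀ ∧ ∀ X, X₀ ≤ X →
    32 * X ^ (2 * κ + 1 - w) * (8 * (κ * logb 2 X) + 19) < 1 := by
  have hneg : 2 * κ + 1 - w < 0 := by linarith
  set δ : ℝ := -(2 * κ + 1 - w) with hδ
  have hδ0 : 0 < δ := by linarith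
  have t1 : Tendsto (fun X : ℝ => X ^ (2 * κ + 1 - w) * logb 2 X) atTop (𝓝 0) := by
    have h1 := (isLittleO_log_rpow_atTop hδ0).tendsto_div_nhds_zero
    have h2 : Tendsto (fun X : ℝ => (Real.log X / X ^ δ) * (1 / Real.log 2)) atTop (𝓝 (0 * (1 / Real.log 2))) :=
      h1.mul_const _
    rw [zero_mul] at h2
    refine h2.congr' ?_
    filter_upwards [eventually_gt_atTop 0] with X hX
    have e1 : 2 * κ + 1 - w = -δ := by rw [hδ]; ring
    have e2 : X ^ (2 * κ + 1 - w) = (X ^ δ)⁻¹ := by rw [e1, Real.rpow_neg hX.le]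
    rw [Real.logb, e2]
    ring
  have t2 : Tendsto (fun X : ℝ => X ^ (2 * κ + 1 - w)) atTop (𝓝 0) := by
    have := tendsto_rpow_neg_atTop hδ0
    simpa [hδ] using this
  have t3 : Tendsto (fun X : ℝ => 32 * X ^ (2 * κ + 1 - w) * (8 * (κ * logb 2 X) + 19)) atTop (𝓝 0) := by
    have h1 := (t1.const_mul (256 * κ)).add (t2.const_mul 608)
    simp only [mul_zero, add_zero] at h1
    refine h1.congr fun X => ?_
    ring
  have h := (t3.eventually_lt_const one_pos).and (eventually_ge_atTop (3 : ℝ))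
  obtain ⟨X₀, hX₀⟩ := h.exists_forall_of_atTop
  exact ⟨X₀, (hX₀ X₀ le_rfl).2, fun X hX => (hX₀ X hX).1⟩

lemma gap {w κ X₀ : ℝ} (hκ : 1 < κ) (hw : κ < (w - 1) / 2) (hX₀ : 3 ≤ X₀)
    (hthr : ∀ X, X₀ ≤ X → 32 * X ^ (2 * κ + 1 - w) * (8 * (κ * logb 2 X) + 19) < 1)
    {θ : ℝ} {u v : Fin 3 → ℤ} (hu : X₀ ≤ height u) (huv : height u ≤ height v)
    (hfu : |form θ u| ≤ (height u : ℝ) ^ (-w)) (hfv : |form θ v| ≤ (height v : ℝ) ^ (-w))
    (hne : ¬ Prop3 u v) : (height u : ℝ) ^ κ ≤ height v := by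
  by_contra hcon
  rw [not_le] at hcon
  set X : ℝ := (height u : ℝ) with hX
  set Y : ℝ := (height v : ℝ) with hY
  have hXY : X ≤ Y := Nat.cast_le.2 huv
  have hX1 : 1 ≤ X := by linarith
  have hX0 : 0 < X := by linarith
  have hY0 : 0 < Y := by linarith
  have h1 := key hX1 hXY le_rfl le_rfl hfu hfv hne
  have hw0 : 0 < w := by linarith
  have h2 : X * Y ^ (-w) ≤ Y * X ^ (-w) := by
    have : Y ^ (-w) ≤ X ^ (-w) := Real.rpow_le_rpow_of_nonpos hX0 hXY (by linarith)
    exact mul_le_mul hXY this (by positivity) hY0.le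
  have hlogX : 0 < logb 2 X := Real.logb_pos (by norm_num) (by linarith)
  have hlogY : logb 2 Y ≤ κ * logb 2 X := by
    rw [← Real.logb_rpow_eq_mul_logb_of_pos hX0]
    exact Real.logb_le_logb_of_le (by norm_num) hY0 hcon.le
  have h3 : 4 * logb 2 (16 * X * Y) + 3 ≤ 8 * (κ * logb 2 X) + 19 := by
    have h4 : logb 2 (16 * X * Y) ≤ logb 2 (16 * Y * Y) := by
      apply Real.logb_le_logb_of_le (by norm_num) (by positivity)
      nlinarith
    have h5 := log16 (H := Y) (by linarith)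
    linarith
  have h6 : 0 ≤ 4 * logb 2 (16 * X * Y) + 3 := by
    have : 0 ≤ logb 2 (16 * X * Y) := Real.logb_nonneg (by norm_num) (by nlinarith)
    linarith
  have h7 : 16 * X * Y * (4 * logb 2 (16 * X * Y) + 3) * (Y * X ^ (-w) + X * Y ^ (-w)) ≤
      16 * X * Y * (8 * (κ * logb 2 X) + 19) * (2 * (Y * X ^ (-w))) := by
    have hp : 0 ≤ X ^ (-w) := by positivity
    apply mul_le_mul
    · exact mul_le_mul_of_nonneg_left h3 (by positivity)
    · linarith
    · have : 0 ≤ Y ^ (-w) := by positivity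
      positivity
    · have : 0 ≤ κ * logb 2 X := by positivity
      positivity
  have h8 : 16 * X * Y * (8 * (κ * logb 2 X) + 19) * (2 * (Y * X ^ (-w))) ≤
      32 * X ^ (2 * κ + 1 - w) * (8 * (κ * logb 2 X) + 19) := by
    have e1 : X ^ (2 * κ + 1 - w) = X ^ κ * X ^ κ * (X * X ^ (-w)) := by
      rw [← Real.rpow_add hX0, ← Real.rpow_one_add' hX0.le (by linarith), ← Real.rpow_add hX0]
      congr 1; ring
    have h9 : Y * Y ≤ X ^ κ * X ^ κ := mul_le_mul hcon.le hcon.le hY0.le (by positivity)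
    have hnn : 0 ≤ 32 * (X * X ^ (-w)) * (8 * (κ * logb 2 X) + 19) := by
      have : 0 ≤ κ * logb 2 X := by positivity
      positivity
    calc 16 * X * Y * (8 * (κ * logb 2 X) + 19) * (2 * (Y * X ^ (-w)))
        = (32 * (X * X ^ (-w)) * (8 * (κ * logb 2 X) + 19)) * (Y * Y) := by ring
      _ ≤ (32 * (X * X ^ (-w)) * (8 * (κ * logb 2 X) + 19)) * (X ^ κ * X ^ κ) :=
          mul_le_mul_of_nonneg_left h9 hnn
      _ = _ := by rw [e1]; ring
  have h10 := hthr X hu
  linarith

lemma finite_height (N : ℝ) : {v : Fin 3 → ℤ | (height v : ℝ) ≤ N}.Finite := by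
  have h : {v : Fin 3 → ℤ | (height v : ℝ) ≤ N} ⊆ Set.pi Set.univ fun _ : Fin 3 => Set.Icc (-⌈N⌉) ⌈N⌉ := by
    intro v hv i _
    have h1 := (abs_le_height v i).trans hv
    have h2 := abs_le.1 h1
    have h3 : (-(⌈N⌉ : ℤ) : ℝ) ≤ v i := by
      have := Int.le_ceil N
      linarith
    have h4 : (v i : ℝ) ≤ (⌈N⌉ : ℤ) := h2.2.trans (Int.le_ceil N)
    exact ⟨by exact_mod_cast h3, by exact_mod_cast h4⟩
  exact (Set.Finite.pi fun _ => Set.finite_Icc _ _).subset h

/-- the set of the primitive solutions of height at most `N` -/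
def sols (θ w N : ℝ) : Set (Fin 3 → ℤ) :=
  {v | Primitive v ∧ (height v : ℝ) ≤ N ∧ |form θ v| ≤ (height v : ℝ) ^ (-w)}

theorem part2 (w κ : ℝ) (hκ : 1 < κ) (hw : κ < (w - 1) / 2) : ∃ C : ℝ, ∀ θ N : ℝ, 3 ≤ N →
    (sols θ w N).Finite ∧ ((sols θ w N).ncard : ℝ) ≤ 2 * Real.log (Real.log N) / Real.log κ + C := by
  classical
  obtain ⟨X₀, hX₀, hthr⟩ := thr hκ hw
  have hlκ : 0 < Real.log κ := Real.log_pos hκ
  refine ⟨({v : Fin 3 → ℤ | (height v : ℝ) ≤ X₀}.ncard : ℝ) + 2, fun θ N hN => ?_⟩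
  have hfin : (sols θ w N).Finite := (finite_height N).subset fun v hv => hv.2.1
  refine ⟨hfin, ?_⟩
  -- the large part
  set B : Set (Fin 3 → ℤ) := {v ∈ sols θ w N | X₀ ≤ height v} with hB
  have hBfin : B.Finite := hfin.subset fun v hv => hv.1
  have hsub : sols θ w N ⊆ {v : Fin 3 → ℤ | (height v : ℝ) ≤ X₀} ∪ B := by
    intro v hv
    rcases le_total (height v : ℝ) X₀ with h | h
    · exact Or.inl h
    · exact Or.inr ⟨hv, h⟩
  have h1 : (sols θ w N).ncard ≤ {v : Fin 3 → ℤ | (height v : ℝ) ≤ X₀}.ncard + B.ncard :=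
    (Set.ncard_le_ncard hsub ((finite_height X₀).union hBfin)).trans (Set.ncard_union_le _ _)
  have hN0 : 0 < Real.log (Real.log N) := by
    apply Real.log_pos
    have h3 : (1 : ℝ) < Real.log 3 := by
      rw [Real.lt_log_iff_exp_lt (by norm_num)]
      exact lt_trans Real.exp_one_lt_d9 (by norm_num)
    exact h3.trans_le (Real.log_le_log (by norm_num) hN)
  set m : ℕ := ⌊Real.log (Real.log N) / Real.log κ⌋₊ with hm
  set K : (Fin 3 → ℤ) → ℕ := fun v => ⌊Real.log (Real.log (height v)) / Real.log κ⌋₊ with hK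
  have hbig : ∀ v ∈ B, 0 < Real.log (height v) ∧ 0 < Real.log (Real.log (height v)) := by
    intro v hv
    have h3 : (1 : ℝ) < Real.log 3 := by
      rw [Real.lt_log_iff_exp_lt (by norm_num)]
      exact lt_trans Real.exp_one_lt_d9 (by norm_num)
    have h4 : Real.log 3 ≤ Real.log (height v) :=
      Real.log_le_log (by norm_num) (hX₀.trans hv.2)
    exact ⟨by linarith, Real.log_pos (by linarith)⟩
  have himg : ∀ v ∈ hBfin.toFinset, K v ∈ Finset.range (m + 1) := by
    intro v hv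
    rw [Set.Finite.mem_toFinset] at hv
    rw [Finset.mem_range, Nat.lt_succ_iff]
    apply Nat.floor_le_floor
    apply div_le_div_of_nonneg_right _ hlκ.le
    have h4 := hbig v hv
    apply Real.log_le_log h4.1
    apply Real.log_le_log
    · have : (3 : ℝ) ≤ height v := hX₀.trans hv.2
      linarith
    · exact hv.1.2.1
  have hpair : ∀ u ∈ B, ∀ v ∈ B, K u = K v → height u ≤ height v → Prop3 u v := by
    intro u hu v hv hKuv hle
    by_contra hne
    have h5 := gap hκ hw hX₀ hthr hu.2 hle hu.1.2.2 hv.1.2.2 hne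
    have hu0 : (0 : ℝ) < height u := by linarith [hu.2]
    have h6 : κ * Real.log (height u) ≤ Real.log (height v) := by
      rw [← Real.log_rpow hu0]
      exact Real.log_le_log (by positivity) h5
    have h7 : Real.log κ + Real.log (Real.log (height u)) ≤ Real.log (Real.log (height v)) := by
      rw [← Real.log_mul (by linarith) (hbig u hu).1.ne']
      apply Real.log_le_log _ h6
      exact mul_pos (by linarith) (hbig u hu).1
    have h8 : Real.log (Real.log (height u)) / Real.log κ + 1 ≤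
        Real.log (Real.log (height v)) / Real.log κ := by
      rw [div_add_one hlκ.ne']
      apply div_le_div_of_nonneg_right _ hlκ.le
      linarith
    have h9 : K u + 1 ≤ K v := by
      have h10 : ⌊Real.log (Real.log (height u)) / Real.log κ + 1⌋₊ = K u + 1 :=
        Nat.floor_add_one (div_nonneg (hbig u hu).2.le hlκ.le)
      rw [← h10]
      exact Nat.floor_le_floor h8
    omega
  have hfib : ∀ k ∈ hBfin.toFinset.image K, (hBfin.toFinset.filter fun v => K v = k).card ≤ 2 := by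
    intro k hk
    obtain ⟨u, hu, hku⟩ := Finset.mem_image.1 hk
    rw [Set.Finite.mem_toFinset] at hu
    have hsub2 : (hBfin.toFinset.filter fun v => K v = k) ⊆ ({u, -u} : Finset (Fin 3 → ℤ)) := by
      intro v hv
      rw [Finset.mem_filter, Set.Finite.mem_toFinset] at hv
      have hKuv : K u = K v := hku.trans hv.2.symm
      have h11 : Prop3 u v := by
        rcases le_total (height u) (height v) with h | h
        · exact hpair u hu v hv.1 hKuv h
        · have := hpair v hv.1 u hu hKuv.symm h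
          exact ⟨this.1.symm, this.2.1.symm, this.2.2.symm⟩
      rcases prop_prim h11 hu.1.1 hv.1.1.1 with h12 | h12
      · simp [h12]
      · simp [h12]
    exact (Finset.card_le_card hsub2).trans (Finset.card_le_two)
  have hcard : hBfin.toFinset.card ≤ 2 * (m + 1) := by
    refine (Finset.card_le_mul_card_image _ 2 hfib).trans ?_
    apply Nat.mul_le_mul_left
    refine (Finset.card_le_card ?_).trans (Finset.card_range (m + 1)).le
    intro k hk
    obtain ⟨u, hu, hku⟩ := Finset.mem_image.1 hk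
    rw [← hku]
    exact himg u hu
  have hBn : B.ncard ≤ 2 * (m + 1) := by
    rw [Set.ncard_eq_toFinset_card B hBfin]
    exact hcard
  have hmle : (m : ℝ) ≤ Real.log (Real.log N) / Real.log κ :=
    Nat.floor_le (div_nonneg hN0.le hlκ.le)
  have h12 : ((sols θ w N).ncard : ℝ) ≤ ({v : Fin 3 → ℤ | (height v : ℝ) ≤ X₀}.ncard : ℝ) + 2 * (m + 1) := by
    have := h1.trans (Nat.add_le_add_left hBn _)
    exact_mod_cast this
  calc ((sols θ w N).ncard : ℝ) ≤ _ := h12
    _ ≤ 2 * Real.log (Real.log N) / Real.log κ + (({v : Fin 3 → ℤ | (height v : ℝ) ≤ X₀}.ncard : ℝ) + 2) := by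
        rw [mul_div_assoc]
        linarith

end Pool.Agent.W2helper71.LF
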