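import Mathlib
import Pool.Agent.W2helper71.LF.Points

set_option autoImplicit false

/-!
# Minimal points of the linear form `a + b e + c θ`
-/

namespace Pool.Agent.W2helper71.LF


open Real Filter Topology

lemma form_comb (θ : ℝ) {u v : Fin 3 → ℤ} (h : Prop3 u v) (i : Fin 3) :
    (v i : ℝ) * form θ u = u i * form θ v := by
  have e : ∀ j, ((v i : ℝ)) * u j = u i * v j := fun j => by
    have := h.all i j
    have h2 : ((u i * v j : ℤ) : ℝ) = ((v i * u j : ℤ) : ℝ) := by rw [this]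
    push_cast at h2
    linarith
  simp only [form]
  linear_combination e 0 + Real.exp 1 * e 1 + θ * e 2

lemma exists_height (v : Fin 3 → ℤ) : ∃ i, |(v i : ℝ)| = height v := by
  obtain ⟨i, -, hi⟩ := Finset.exists_mem_eq_sup Finset.univ Finset.univ_nonempty
    (fun i => (v i).natAbs)
  refine ⟨i, ?_⟩
  have h : ((height v : ℕ) : ℝ) = (((v i).natAbs : ℕ) : ℝ) := by
    rw [show height v = (v i).natAbs from hi]
  rw [h, Nat.cast_natAbs, Int.cast_abs]

/-- the determinant -/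
def det3 (u v x : Fin 3 → ℤ) : ℤ :=
  u 0 * (v 1 * x 2 - v 2 * x 1) - u 1 * (v 0 * x 2 - v 2 * x 0) + u 2 * (v 0 * x 1 - v 1 * x 0)

lemma det3_form (θ : ℝ) (u v x : Fin 3 → ℤ) : (det3 u v x : ℝ) =
    form θ u * (v 1 * x 2 - v 2 * x 1) - form θ v * (u 1 * x 2 - u 2 * x 1) +
      form θ x * (u 1 * v 2 - u 2 * v 1) := by
  simp only [det3, form]
  push_cast
  ring

lemma abs_two {X Y p q r s : ℝ} (hp : |p| ≤ X) (hq : |q| ≤ Y) (hr : |r| ≤ X) (hs : |s| ≤ Y) :
    |p * q - r * s| ≤ 2 * (X * Y) := by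
  have hX : 0 ≤ X := (abs_nonneg _).trans hp
  refine (abs_sub _ _).trans ?_
  rw [abs_mul, abs_mul]
  have h1 := mul_le_mul hp hq (abs_nonneg _) hX
  have h2 := mul_le_mul hr hs (abs_nonneg _) hX
  linarith

lemma det3_bound {θ X Y Z l : ℝ} (hXY : X ≤ Y) (hYZ : Y ≤ Z) {u v x : Fin 3 → ℤ}
    (hu : (height u : ℝ) ≤ X) (hv : (height v : ℝ) ≤ Y) (hx : (height x : ℝ) ≤ Z)
    (h1 : |form θ u| ≤ l) (h2 : |form θ v| ≤ l) (h3 : |form θ x| ≤ l) :
    |(det3 u v x : ℝ)| ≤ 6 * (Y * Z) * l := by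
  have hX : 0 ≤ X := (Nat.cast_nonneg _).trans hu
  have hY : 0 ≤ Y := hX.trans hXY
  have hZ : 0 ≤ Z := hY.trans hYZ
  have hl : 0 ≤ l := (abs_nonneg _).trans h1
  have a := fun i => (abs_le_height u i).trans hu
  have b := fun i => (abs_le_height v i).trans hv
  have c := fun i => (abs_le_height x i).trans hx
  have k1 : |(v 1 * x 2 - v 2 * x 1 : ℝ)| ≤ 2 * (Y * Z) := abs_two (b 1) (c 2) (b 2) (c 1)
  have k2 : |(u 1 * x 2 - u 2 * x 1 : ℝ)| ≤ 2 * (X * Z) := abs_two (a 1) (c 2) (a 2) (c 1)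
  have k3 : |(u 1 * v 2 - u 2 * v 1 : ℝ)| ≤ 2 * (X * Y) := abs_two (a 1) (b 2) (a 2) (b 1)
  have k2' : 2 * (X * Z) ≤ 2 * (Y * Z) := by
    have := mul_le_mul_of_nonneg_right hXY hZ
    linarith
  have k3' : 2 * (X * Y) ≤ 2 * (Y * Z) := by
    have := mul_le_mul hXY hYZ hY hY
    linarith
  rw [det3_form θ]
  have t : |form θ u * (v 1 * x 2 - v 2 * x 1) - form θ v * (u 1 * x 2 - u 2 * x 1) +
      form θ x * (u 1 * v 2 - u 2 * v 1)| ≤ |form θ u * (v 1 * x 2 - v 2 * x 1)| +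
      |form θ v * (u 1 * x 2 - u 2 * x 1)| + |form θ x * (u 1 * v 2 - u 2 * v 1)| := by
    refine (abs_add_le _ _).trans ?_
    gcongr
    exact abs_sub _ _
  refine t.trans ?_
  rw [abs_mul, abs_mul, abs_mul]
  have m1 := mul_le_mul h1 k1 (abs_nonneg _) hl
  have m2 := mul_le_mul h2 (k2.trans k2') (abs_nonneg _) hl
  have m3 := mul_le_mul h3 (k3.trans k3') (abs_nonneg _) hl
  linarith

/-- the threshold -/
lemma thr2 {η : ℝ} (hη : η < 0) (C : ℝ) : ∃ Y₀ : ℝ, ∀ Y, Y₀ ≤ Y →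
    C * Y ^ η * (8 * logb 2 Y + 19) < 1 := by
  set δ : ℝ := -η with hδ
  have hδ0 : 0 < δ := by linarith
  have t1 : Tendsto (fun X : ℝ => X ^ η * logb 2 X) atTop (𝓝 0) := by
    have h1 := (isLittleO_log_rpow_atTop hδ0).tendsto_div_nhds_zero
    have h2 : Tendsto (fun X : ℝ => (Real.log X / X ^ δ) * (1 / Real.log 2)) atTop
        (𝓝 (0 * (1 / Real.log 2))) := h1.mul_const _
    rw [zero_mul] at h2
    refine h2.congr' ?_
    filter_upwards [eventually_gt_atTop 0] with X hX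
    have e1 : η = -δ := by rw [hδ]; ring
    have e2 : X ^ η = (X ^ δ)⁻¹ := by rw [e1, Real.rpow_neg hX.le]
    rw [Real.logb, e2]
    ring
  have t2 : Tendsto (fun X : ℝ => X ^ η) atTop (𝓝 0) := by
    have := tendsto_rpow_neg_atTop hδ0
    simpa [hδ] using this
  have t3 : Tendsto (fun X : ℝ => C * X ^ η * (8 * logb 2 X + 19)) atTop (𝓝 0) := by
    have h1 := (t1.const_mul (8 * C)).add (t2.const_mul (19 * C))
    simp only [mul_zero, add_zero] at h1
    refine h1.congr fun X => ?_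
    ring
  obtain ⟨X₀, hX₀⟩ := (t3.eventually_lt_const one_pos).exists_forall_of_atTop
  exact ⟨X₀, hX₀⟩

/-- the states of the construction of the minimal points -/
structure St (θ : ℝ) where
  X : ℕ
  v : Fin 3 → ℤ
  ne : v ≠ 0
  le : height v ≤ X
  min : ∀ u : Fin 3 → ℤ, u ≠ 0 → height u ≤ X → |form θ v| ≤ |form θ u|

lemma exists_min (θ : ℝ) (X : ℕ) (hX : 1 ≤ X) : ∃ v : Fin 3 → ℤ, v ≠ 0 ∧ height v ≤ X ∧
    ∀ u : Fin 3 → ℤ, u ≠ 0 → height u ≤ X → |form θ v| ≤ |form θ u| := by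
  set F : Set (Fin 3 → ℤ) := {v | v ≠ 0 ∧ height v ≤ X} with hF
  have hfin : F.Finite := (finite_height (X : ℝ)).subset fun v hv => by
    exact (Nat.cast_le (α := ℝ)).2 hv.2
  have hne : F.Nonempty := by
    refine ⟨![1, 0, 0], ?_, ?_⟩
    · intro h
      have := congrFun h 0
      simp at this
    · refine Finset.sup_le fun i _ => ?_
      fin_cases i <;> simp <;> omega
  obtain ⟨v, hv, hmin⟩ := Set.exists_min_image F (fun v => |form θ v|) hfin hne
  exact ⟨v, hv.1, hv.2, fun u hu hu' => hmin u ⟨hu, hu'⟩⟩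

/-- one step -/
lemma step {θ w H₁ : ℝ} (hw : 0 < w) (hind : ∀ v : Fin 3 → ℤ, v ≠ 0 → form θ v ≠ 0)
    (hsm : ∀ H : ℝ, H₁ ≤ H → ∃ v : Fin 3 → ℤ, v ≠ 0 ∧ (height v : ℝ) ≤ H ∧
      |form θ v| ≤ H ^ (-w)) (s : St θ) :
    ∃ t : St θ, s.X < t.X ∧ height t.v = t.X ∧ |form θ t.v| < |form θ s.v| ∧
      (H₁ ≤ (t.X : ℝ) - 1 → |form θ s.v| ≤ ((t.X : ℝ) - 1) ^ (-w)) := by
  classical
  have hl : 0 < |form θ s.v| := abs_pos.2 (hind _ s.ne)
  have hex : ∃ Z : ℕ, ∃ u : Fin 3 → ℤ, u ≠ 0 ∧ height u ≤ Z ∧ |form θ u| < |form θ s.v| := by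
    have h1 : Tendsto (fun n : ℕ => (n : ℝ) ^ (-w)) atTop (𝓝 0) :=
      (tendsto_rpow_neg_atTop hw).comp tendsto_natCast_atTop_atTop
    obtain ⟨Z, hZ1, hZ2⟩ := ((h1.eventually_lt_const hl).and
      (tendsto_natCast_atTop_atTop.eventually_ge_atTop H₁)).exists
    obtain ⟨u, hu0, hu1, hu2⟩ := hsm Z hZ2
    exact ⟨Z, u, hu0, by exact_mod_cast hu1, hu2.trans_lt hZ1⟩
  set Y := Nat.find hex with hY
  obtain ⟨u, hu0, hu1, hu2⟩ := Nat.find_spec hex
  have hXY : s.X < Y := by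
    by_contra hcon
    rw [not_lt] at hcon
    exact absurd (s.min u hu0 (hu1.trans hcon)) (not_le.2 hu2)
  obtain ⟨v, hv0, hv1, hv2⟩ := exists_min θ Y (by omega)
  have hvl : |form θ v| < |form θ s.v| := (hv2 u hu0 hu1).trans_lt hu2
  refine ⟨⟨Y, v, hv0, hv1, hv2⟩, hXY, ?_, hvl, fun hH => ?_⟩
  · show height v = Y
    by_contra hne
    exact Nat.find_min hex (m := height v) (by omega) ⟨v, hv0, le_rfl, hvl⟩
  · obtain ⟨u', hu0', hu1', hu2'⟩ := hsm _ hH
    refine le_trans ?_ hu2'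
    by_contra hcon
    rw [not_le] at hcon
    have h3 : height u' ≤ Y - 1 := by
      have h4 : (height u' : ℝ) ≤ ((Y - 1 : ℕ) : ℝ) := by
        rw [Nat.cast_sub (by omega)]
        exact_mod_cast hu1'
      exact_mod_cast h4
    exact Nat.find_min hex (m := Y - 1) (by omega) ⟨u', hu0', h3, hcon⟩

/-- the main part -/
theorem main {θ w : ℝ} (hw : (3 + √5) / 2 < w) (hind : ∀ v : Fin 3 → ℤ, v ≠ 0 → form θ v ≠ 0)
    (H₁ : ℝ) (hsm : ∀ H : ℝ, H₁ ≤ H → ∃ v : Fin 3 → ℤ, v ≠ 0 ∧ (height v : ℝ) ≤ H ∧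
      |form θ v| ≤ H ^ (-w)) : False := by
  classical
  have h5 : √5 ^ 2 = 5 := Real.sq_sqrt (by norm_num)
  have h52 : 2 < √5 := by
    rw [Real.lt_sqrt (by norm_num)]; norm_num
  have hw2 : 5 / 2 < w := by linarith
  have hw0 : 0 < w := by linarith
  have hquad : 1 < (w - 1) * (w - 2) := by nlinarith
  choose nxt hn1 hn2 hn3 hn4 using step (θ := θ) hw0 hind hsm
  -- the initial state
  set X₀ : ℕ := ⌈|H₁|⌉₊ + 2 with hX₀
  obtain ⟨v₀, hv₀, hv₁, hv₂⟩ := exists_min θ X₀ (by omega)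
  set s : ℕ → St θ := fun n => nxt^[n] ⟨X₀, v₀, hv₀, hv₁, hv₂⟩ with hs
  have hsucc : ∀ n, s (n + 1) = nxt (s n) := fun n => Function.iterate_succ_apply' nxt n _
  have hX1 : ∀ n, (s n).X < (s (n + 1)).X := fun n => by rw [hsucc]; exact hn1 _
  have hX2 : ∀ n, X₀ + n ≤ (s n).X := by
    intro n
    induction n with
    | zero => exact le_rfl
    | succ n ih => have := hX1 n; omega
  have hht : ∀ n, (height (s n).v : ℝ) ≤ (s n).X := fun n => Nat.cast_le.2 (s n).le
  have hht2 : ∀ n, height (s (n + 1)).v = (s (n + 1)).X := fun n => by rw [hsucc]; exact hn2 _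
  have hl1 : ∀ n, |form θ (s (n + 1)).v| < |form θ (s n).v| := fun n => by rw [hsucc]; exact hn3 _
  have hlpos : ∀ n, 0 < |form θ (s n).v| := fun n => abs_pos.2 (hind _ (s n).ne)
  have hH1 : H₁ + 2 ≤ X₀ := by
    have h1 : |H₁| ≤ (⌈|H₁|⌉₊ : ℝ) := Nat.le_ceil _
    have h2 := le_abs_self H₁
    rw [hX₀]; push_cast; linarith
  have hXr : ∀ n, (X₀ : ℝ) + n ≤ (s n).X := fun n => by exact_mod_cast hX2 n
  have hXr2 : (2 : ℝ) ≤ X₀ := by rw [hX₀]; push_cast; linarith [Nat.cast_nonneg (α := ℝ) ⌈|H₁|⌉₊]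
  have hl2 : ∀ n, |form θ (s n).v| ≤ 2 ^ w * ((s (n + 1)).X : ℝ) ^ (-w) := by
    intro n
    have hY := hXr (n + 1)
    push_cast at hY
    have hn0 : (0 : ℝ) ≤ n := Nat.cast_nonneg n
    have h1 : |form θ (s n).v| ≤ (((s (n + 1)).X : ℝ) - 1) ^ (-w) := by
      have := hn4 (s n)
      rw [← hsucc] at this
      apply this
      linarith
    refine h1.trans ?_
    have h2 : ((s (n + 1)).X : ℝ) / 2 ≤ ((s (n + 1)).X : ℝ) - 1 := by linarith
    have h3 : (0 : ℝ) < ((s (n + 1)).X : ℝ) / 2 := by linarith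
    refine (Real.rpow_le_rpow_of_nonpos h3 h2 (by linarith)).trans (le_of_eq ?_)
    rw [Real.div_rpow (by linarith) (by norm_num), Real.rpow_neg (by norm_num : (0 : ℝ) ≤ 2), div_inv_eq_mul]
    ring
  -- consecutive points are not proportional
  have hnp : ∀ n, ¬ Prop3 (s n).v (s (n + 1)).v := by
    intro n h
    obtain ⟨i, hi⟩ := exists_height (s (n + 1)).v
    have h1 := form_comb θ h i
    have h2 : |((s (n + 1)).v i : ℝ)| * |form θ (s n).v| = |((s n).v i : ℝ)| * |form θ (s (n + 1)).v| := by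
      rw [← abs_mul, ← abs_mul, h1]
    rw [hi, hht2] at h2
    have h3 : |((s n).v i : ℝ)| ≤ (s n).X := (abs_le_height _ _).trans (hht n)
    have h4 : ((s n).X : ℝ) < (s (n + 1)).X := by exact_mod_cast hX1 n
    have h5 := hl1 n
    have h6 := hlpos n
    have h7 : |((s n).v i : ℝ)| * |form θ (s (n + 1)).v| ≤ ((s n).X : ℝ) * |form θ (s n).v| :=
      mul_le_mul h3 h5.le (abs_nonneg _) (Nat.cast_nonneg _)
    nlinarith
  -- three consecutive points are dependent from some point on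
  set β : ℝ := 1 / (w - 1) with hβ
  have hβ0 : 0 < β := one_div_pos.2 (by linarith)
  have hη : β + 2 - w < 0 := by
    have : β < w - 2 := by
      rw [hβ, div_lt_iff₀ (by linarith)]
      linarith
    linarith
  obtain ⟨Y₀, hY₀⟩ := thr2 hη (32 * 2 ^ w * (6 * 2 ^ w) ^ β)
  have hdet : ∀ n : ℕ, Y₀ ≤ (n : ℝ) → det3 (s n).v (s (n + 1)).v (s (n + 2)).v = 0 := by
    intro n hn
    by_contra hne
    set X : ℝ := ((s (n + 1)).X : ℝ) with hX
    set Y : ℝ := ((s (n + 2)).X : ℝ) with hY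
    have hn0 : (0 : ℝ) ≤ n := Nat.cast_nonneg n
    have hXlow := hXr (n + 1)
    have hYlow := hXr (n + 2)
    push_cast at hXlow hYlow
    rw [← hX] at hXlow
    rw [← hY] at hYlow
    have hXpos : 0 < X := by linarith
    have hYpos : 0 < Y := by linarith
    have hXY : X ≤ Y := Nat.cast_le.2 (hX1 (n + 1)).le
    have hXX : ((s n).X : ℝ) ≤ X := Nat.cast_le.2 (hX1 n).le
    have h2w : (0 : ℝ) < 2 ^ w := by positivity
    -- (i)
    have hi : X ^ (w - 1) ≤ 6 * 2 ^ w * Y := by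
      have h1 : (1 : ℝ) ≤ |(det3 (s n).v (s (n + 1)).v (s (n + 2)).v : ℝ)| := by
        exact_mod_cast Int.one_le_abs hne
      have h2 := det3_bound (θ := θ) hXX hXY (hht n) (hht (n + 1)) (hht (n + 2)) le_rfl (hl1 n).le
        ((hl1 (n + 1)).le.trans (hl1 n).le)
      have h3 := hl2 n
      rw [← hX] at h3
      have h4 : (1 : ℝ) ≤ 6 * (X * Y) * (2 ^ w * X ^ (-w)) := by
        refine h1.trans (h2.trans ?_)
        exact mul_le_mul_of_nonneg_left h3 (by positivity)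
      have h5 : X ^ (w - 1) * (X * X ^ (-w)) = 1 := by
        rw [← Real.rpow_one_add' hXpos.le (by linarith), ← Real.rpow_add hXpos,
          show w - 1 + (1 + -w) = 0 by ring, Real.rpow_zero]
      have h6 : (0 : ℝ) < X ^ (w - 1) := by positivity
      calc X ^ (w - 1) = X ^ (w - 1) * 1 := by ring
        _ ≤ X ^ (w - 1) * (6 * (X * Y) * (2 ^ w * X ^ (-w))) := mul_le_mul_of_nonneg_left h4 h6.le
        _ = (X ^ (w - 1) * (X * X ^ (-w))) * (6 * 2 ^ w * Y) := by ring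
        _ = 6 * 2 ^ w * Y := by rw [h5, one_mul]
    have hi2 : X ≤ (6 * 2 ^ w) ^ β * Y ^ β := by
      rw [← Real.mul_rpow (by positivity) hYpos.le]
      have h1 : X = (X ^ (w - 1)) ^ β := by
        rw [← Real.rpow_mul hXpos.le, hβ, mul_one_div, div_self (by linarith), Real.rpow_one]
      rw [h1]
      exact Real.rpow_le_rpow (by positivity) hi hβ0.le
    -- (ii)
    have hlow := key (θ := θ) (by linarith : (1 : ℝ) ≤ X) hXY (hht (n + 1)) (hht (n + 2)) le_rfl le_rfl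
      (hnp (n + 1))
    have hl3 : |form θ (s (n + 1)).v| ≤ 2 ^ w * Y ^ (-w) := hl2 (n + 1)
    have hlogY : 0 < logb 2 Y := Real.logb_pos (by norm_num) (by linarith)
    have h3 : 4 * logb 2 (16 * X * Y) + 3 ≤ 8 * logb 2 Y + 19 := by
      have h4 : logb 2 (16 * X * Y) ≤ logb 2 (16 * Y * Y) := by
        apply Real.logb_le_logb_of_le (by norm_num) (by positivity)
        nlinarith
      have h5 := log16 (H := Y) (by linarith)
      linarith
    have h6 : Y * |form θ (s (n + 1)).v| + X * |form θ (s (n + 1 + 1)).v| ≤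
        2 * (Y * (2 ^ w * Y ^ (-w))) := by
      have a1 : Y * |form θ (s (n + 1)).v| ≤ Y * (2 ^ w * Y ^ (-w)) :=
        mul_le_mul_of_nonneg_left hl3 hYpos.le
      have a2 : X * |form θ (s (n + 1 + 1)).v| ≤ Y * (2 ^ w * Y ^ (-w)) :=
        mul_le_mul hXY ((hl1 (n + 1)).le.trans hl3) (abs_nonneg _) hYpos.le
      linarith
    have h7 : (1 : ℝ) ≤ 16 * X * Y * (8 * logb 2 Y + 19) * (2 * (Y * (2 ^ w * Y ^ (-w)))) := by
      refine hlow.trans ?_
      apply mul_le_mul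
      · exact mul_le_mul_of_nonneg_left h3 (by positivity)
      · exact h6
      · positivity
      · positivity
    have h8 : 16 * X * Y * (8 * logb 2 Y + 19) * (2 * (Y * (2 ^ w * Y ^ (-w)))) ≤
        32 * 2 ^ w * (6 * 2 ^ w) ^ β * Y ^ (β + 2 - w) * (8 * logb 2 Y + 19) := by
      have e1 : Y ^ (β + 2 - w) = Y ^ β * (Y * Y * Y ^ (-w)) := by
        have e2 : Y * Y = Y ^ (2 : ℝ) := by
          rw [Real.rpow_two]; ring
        rw [e2, ← Real.rpow_add hYpos, ← Real.rpow_add hYpos]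
        congr 1; ring
      have hnn : 0 ≤ 32 * 2 ^ w * (Y * Y * Y ^ (-w)) * (8 * logb 2 Y + 19) := by positivity
      calc 16 * X * Y * (8 * logb 2 Y + 19) * (2 * (Y * (2 ^ w * Y ^ (-w))))
          = (32 * 2 ^ w * (Y * Y * Y ^ (-w)) * (8 * logb 2 Y + 19)) * X := by ring
        _ ≤ (32 * 2 ^ w * (Y * Y * Y ^ (-w)) * (8 * logb 2 Y + 19)) * ((6 * 2 ^ w) ^ β * Y ^ β) :=
            mul_le_mul_of_nonneg_left hi2 hnn
        _ = _ := by rw [e1]; ring
    have h9 := hY₀ Y (by linarith)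
    linarith
  -- so all points lie in a plane
  set K : ℕ := ⌈|Y₀|⌉₊ with hK
  have hKY : Y₀ ≤ K := (le_abs_self _).trans (Nat.le_ceil _)
  set m0 : ℤ := (s K).v 1 * (s (K + 1)).v 2 - (s K).v 2 * (s (K + 1)).v 1 with hm0
  set m1 : ℤ := (s K).v 2 * (s (K + 1)).v 0 - (s K).v 0 * (s (K + 1)).v 2 with hm1
  set m2 : ℤ := (s K).v 0 * (s (K + 1)).v 1 - (s K).v 1 * (s (K + 1)).v 0 with hm2
  have hplane : ∀ k, m0 * (s (K + k)).v 0 + m1 * (s (K + k)).v 1 + m2 * (s (K + k)).v 2 = 0 ∧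
      m0 * (s (K + k + 1)).v 0 + m1 * (s (K + k + 1)).v 1 + m2 * (s (K + k + 1)).v 2 = 0 := by
    intro k
    induction k with
    | zero =>
      constructor
      · simp only [Nat.add_zero]; rw [hm0, hm1, hm2]; ring
      · simp only [Nat.add_zero]; rw [hm0, hm1, hm2]; ring
    | succ k ih =>
      refine ⟨ih.2, ?_⟩
      obtain ⟨ih1, ih2⟩ := ih
      have hd := hdet (K + k) (by push_cast; linarith [Nat.cast_nonneg (α := ℝ) k])
      have hn := hnp (K + k)
      set p := (s (K + k)).v with hp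
      set q := (s (K + k + 1)).v with hq
      have e3 : K + (k + 1) + 1 = K + k + 2 := by ring
      rw [e3]
      set x := (s (K + k + 2)).v with hx
      unfold det3 at hd
      set T := m0 * x 0 + m1 * x 1 + m2 * x 2 with hT
      have f0 : T * (p 1 * q 2 - p 2 * q 1) = 0 := by
        rw [hT]
        linear_combination m0 * hd - (q 1 * x 2 - q 2 * x 1) * ih1 - (x 1 * p 2 - x 2 * p 1) * ih2
      have f1 : T * (p 2 * q 0 - p 0 * q 2) = 0 := by
        rw [hT]
        linear_combination m1 * hd - (q 2 * x 0 - q 0 * x 2) * ih1 - (x 2 * p 0 - x 0 * p 2) * ih2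
      have f2 : T * (p 0 * q 1 - p 1 * q 0) = 0 := by
        rw [hT]
        linear_combination m2 * hd - (q 0 * x 1 - q 1 * x 0) * ih1 - (x 0 * p 1 - x 1 * p 0) * ih2
      by_contra hT0
      apply hn
      have g0 := (mul_eq_zero.1 f0).resolve_left hT0
      have g1 := (mul_eq_zero.1 f1).resolve_left hT0
      have g2 := (mul_eq_zero.1 f2).resolve_left hT0
      exact ⟨by linarith, by linarith, by linarith⟩
  -- the two coordinates of the vector product
  set M : ℝ := |(m0 : ℝ)| + |(m1 : ℝ)| + |(m2 : ℝ)| with hM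
  have hMb : ∀ k, |(m1 : ℝ) - Real.exp 1 * m0| ≤ M * (2 * (2 ^ w * ((s (K + k + 1)).X : ℝ) ^ (1 - w))) ∧
      |θ * m0 - m2| ≤ M * (2 * (2 ^ w * ((s (K + k + 1)).X : ℝ) ^ (1 - w))) := by
    intro k
    obtain ⟨ih1, ih2⟩ := hplane k
    have hn := hnp (K + k)
    have hb1 := hl2 (K + k)
    have hb2 := hl1 (K + k)
    have ha1 := hht (K + k)
    have ha2 := hht (K + k + 1)
    have hXX : ((s (K + k)).X : ℝ) ≤ (s (K + k + 1)).X := by exact_mod_cast (hX1 (K + k)).le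
    have hXlow := hXr (K + k + 1)
    push_cast at hXlow
    have hk0 : (0 : ℝ) ≤ k := Nat.cast_nonneg k
    have hK0 : (0 : ℝ) ≤ K := Nat.cast_nonneg K
    set p := (s (K + k)).v with hp
    set q := (s (K + k + 1)).v with hq
    set X : ℝ := ((s (K + k + 1)).X : ℝ) with hX
    have hXpos : 0 < X := by linarith
    -- the parallel vector
    obtain ⟨z, hz, hz0, hz1, hz2⟩ : ∃ z : Fin 3 → ℤ, (∃ j, z j ≠ 0) ∧ z 0 = p 1 * q 2 - p 2 * q 1 ∧
        z 1 = p 2 * q 0 - p 0 * q 2 ∧ z 2 = p 0 * q 1 - p 1 * q 0 := by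
      refine ⟨![p 1 * q 2 - p 2 * q 1, p 2 * q 0 - p 0 * q 2, p 0 * q 1 - p 1 * q 0], ?_, rfl, rfl, rfl⟩
      by_contra hcon
      push Not at hcon
      have g0 := hcon 0
      have g1 := hcon 1
      have g2 := hcon 2
      simp only [Matrix.cons_val_zero, Matrix.cons_val_one, Matrix.cons_val] at g0 g1 g2
      exact hn ⟨by linarith, by linarith, by linarith⟩
    have par01 : m0 * z 1 = m1 * z 0 := by
      rw [hz0, hz1]; linear_combination (-q 2) * ih1 + p 2 * ih2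
    have par02 : m0 * z 2 = m2 * z 0 := by
      rw [hz0, hz2]; linear_combination q 1 * ih1 - p 1 * ih2
    have par12 : m1 * z 2 = m2 * z 1 := by
      rw [hz1, hz2]; linear_combination (-q 0) * ih1 + p 0 * ih2
    have r01 : (m0 : ℝ) * z 1 = m1 * z 0 := by exact_mod_cast par01
    have r02 : (m0 : ℝ) * z 2 = m2 * z 0 := by exact_mod_cast par02
    have r12 : (m1 : ℝ) * z 2 = m2 * z 1 := by exact_mod_cast par12
    have E2 : (z 1 : ℝ) - Real.exp 1 * z 0 = p 2 * form θ q - q 2 * form θ p := by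
      rw [hz0, hz1]; simp only [form]; push_cast; ring
    have E1 : θ * z 0 - z 2 = p 1 * form θ q - q 1 * form θ p := by
      rw [hz0, hz2]; simp only [form]; push_cast; ring
    have hb3 : X * (2 ^ w * X ^ (-w)) = 2 ^ w * X ^ (1 - w) := by
      rw [sub_eq_add_neg, Real.rpow_add hXpos, Real.rpow_one]; ring
    have bd : ∀ i : Fin 3, |(p i : ℝ) * form θ q - q i * form θ p| ≤ 2 * (2 ^ w * X ^ (1 - w)) := by
      intro i
      refine (abs_sub _ _).trans ?_
      rw [abs_mul, abs_mul, ← hb3]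
      have a1 : |(p i : ℝ)| ≤ X := (abs_le_height p i).trans (ha1.trans hXX)
      have a2 : |(q i : ℝ)| ≤ X := (abs_le_height q i).trans ha2
      have a3 := mul_le_mul a1 (hb2.le.trans hb1) (abs_nonneg _) hXpos.le
      have a4 := mul_le_mul a2 hb1 (abs_nonneg _) hXpos.le
      linarith
    have e2 := bd 2
    have e1 := bd 1
    rw [← E2] at e2
    rw [← E1] at e1
    obtain ⟨j, hj⟩ := hz
    have hj1 : (1 : ℝ) ≤ |(z j : ℝ)| := by exact_mod_cast Int.one_le_abs hj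
    -- multiply by `z j`
    obtain ⟨mj, hmj, k1, k2⟩ : ∃ mj : ℤ, |(mj : ℝ)| ≤ M ∧
        (z j : ℝ) * (m1 - Real.exp 1 * m0) = mj * (z 1 - Real.exp 1 * z 0) ∧
        (z j : ℝ) * (θ * m0 - m2) = mj * (θ * z 0 - z 2) := by
      have n0 := abs_nonneg (m0 : ℝ)
      have n1 := abs_nonneg (m1 : ℝ)
      have n2 := abs_nonneg (m2 : ℝ)
      fin_cases j
      · refine ⟨m0, by rw [hM]; linarith, ?_, ?_⟩
        · simp only [Fin.zero_eta]; linear_combination -r01
        · simp only [Fin.zero_eta]; linear_combination r02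
      · refine ⟨m1, by rw [hM]; linarith, ?_, ?_⟩
        · simp only [Fin.mk_one]; linear_combination (-Real.exp 1) * r01
        · simp only [Fin.mk_one]; linear_combination θ * r01 + r12
      · refine ⟨m2, by rw [hM]; linarith, ?_, ?_⟩
        · simp only [Fin.reduceFinMk]; linear_combination r12 - Real.exp 1 * r02
        · simp only [Fin.reduceFinMk]; linear_combination θ * r02
    have hM0 : 0 ≤ M := by rw [hM]; positivity
    constructor
    · calc |(m1 : ℝ) - Real.exp 1 * m0| = 1 * |(m1 : ℝ) - Real.exp 1 * m0| := (one_mul _).symm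
        _ ≤ |(z j : ℝ)| * |(m1 : ℝ) - Real.exp 1 * m0| := mul_le_mul_of_nonneg_right hj1 (abs_nonneg _)
        _ = |(mj : ℝ)| * |(z 1 : ℝ) - Real.exp 1 * z 0| := by rw [← abs_mul, ← abs_mul, k1]
        _ ≤ M * (2 * (2 ^ w * X ^ (1 - w))) := mul_le_mul hmj e2 (abs_nonneg _) hM0
    · calc |θ * m0 - m2| = 1 * |θ * m0 - m2| := (one_mul _).symm
        _ ≤ |(z j : ℝ)| * |θ * m0 - m2| := mul_le_mul_of_nonneg_right hj1 (abs_nonneg _)
        _ = |(mj : ℝ)| * |θ * z 0 - z 2| := by rw [← abs_mul, ← abs_mul, k2]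
        _ ≤ M * (2 * (2 ^ w * X ^ (1 - w))) := mul_le_mul hmj e1 (abs_nonneg _) hM0
  have hlim : Tendsto (fun k : ℕ => M * (2 * (2 ^ w * ((s (K + k + 1)).X : ℝ) ^ (1 - w)))) atTop (𝓝 0) := by
    have h1 : Tendsto (fun k : ℕ => ((s (K + k + 1)).X : ℝ)) atTop atTop := by
      apply tendsto_atTop_mono _ tendsto_natCast_atTop_atTop
      intro k
      have := hXr (K + k + 1)
      push_cast at this
      linarith [Nat.cast_nonneg (α := ℝ) K]
    have h2 : Tendsto (fun x : ℝ => x ^ (-(w - 1))) atTop (𝓝 0) := tendsto_rpow_neg_atTop (by linarith)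
    have h3 := ((h2.comp h1).const_mul (2 ^ w)).const_mul 2 |>.const_mul M
    simp only [mul_zero] at h3
    refine h3.congr fun k => ?_
    simp only [Function.comp]
    rw [show -(w - 1) = 1 - w by ring]
  have z1 : |(m1 : ℝ) - Real.exp 1 * m0| ≤ 0 := ge_of_tendsto' hlim fun k => (hMb k).1
  have z2 : |θ * m0 - m2| ≤ 0 := ge_of_tendsto' hlim fun k => (hMb k).2
  have z1' : (m1 : ℝ) - Real.exp 1 * m0 = 0 := abs_eq_zero.1 (le_antisymm z1 (abs_nonneg _))
  have z2' : θ * m0 - m2 = 0 := abs_eq_zero.1 (le_antisymm z2 (abs_nonneg _))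
  have hm01 : m1 = 0 ∧ -m0 = 0 := by
    by_contra hcon
    have h1 := low (A := m1) (B := -m0) (K := |((-m0 : ℤ) : ℝ)| + 1) (by linarith [abs_nonneg ((-m0 : ℤ) : ℝ)])
      (by linarith) hcon
    have h2 : (m1 : ℝ) + ((-m0 : ℤ) : ℝ) * Real.exp 1 = 0 := by push_cast; linarith
    rw [h2, abs_zero, mul_zero] at h1
    linarith
  have hm0' : m0 = 0 := by linarith [hm01.2]
  have hm2' : m2 = 0 := by
    rw [hm0'] at z2'
    have : (m2 : ℝ) = 0 := by simpa using z2'
    exact_mod_cast this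
  apply hnp K
  refine ⟨?_, ?_, ?_⟩
  · linarith
  · linarith [hm01.1]
  · linarith

theorem dep_large {θ : ℝ} {v₀ : Fin 3 → ℤ} (hv₀ : v₀ ≠ 0) (hf : form θ v₀ = 0) {w : ℝ} (hw : 1 < w) :
    ∃ H₁ : ℝ, ∀ H : ℝ, H₁ ≤ H → ∀ v : Fin 3 → ℤ, (height v : ℝ) ≤ H →
      form θ v = 0 ∨ H ^ (-w) < |form θ v| := by
  set X : ℝ := (height v₀ : ℝ) with hX
  have hX1 : 1 ≤ X := by
    obtain ⟨i, hi⟩ := Function.ne_iff.1 hv₀
    have h1 : (1 : ℝ) ≤ |(v₀ i : ℝ)| := by exact_mod_cast Int.one_le_abs (by simpa using hi)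
    exact h1.trans (abs_le_height v₀ i)
  obtain ⟨Y₀, hY₀⟩ := thr2 (show 1 - w < 0 by linarith) (16 * X * X)
  refine ⟨max X (max Y₀ 1), fun H hH v hv => ?_⟩
  have hXH : X ≤ H := (le_max_left _ _).trans hH
  have hYH : Y₀ ≤ H := ((le_max_left _ _).trans (le_max_right _ _)).trans hH
  have hH1 : 1 ≤ H := ((le_max_right _ _).trans (le_max_right _ _)).trans hH
  have hH0 : 0 < H := by linarith
  by_cases h0 : form θ v = 0
  · exact Or.inl h0
  · right
    have hne : ¬ Prop3 v₀ v := by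
      intro h
      obtain ⟨i, hi⟩ := Function.ne_iff.1 hv₀
      have h1 := form_comb θ h i
      rw [hf, mul_zero] at h1
      have h2 : (v₀ i : ℝ) ≠ 0 := by
        simpa using hi
      rcases mul_eq_zero.1 h1.symm with h3 | h3
      · exact h2 h3
      · exact h0 h3
    have h1 := key (θ := θ) (x := 0) (y := |form θ v|) hX1 hXH le_rfl hv (by rw [hf, abs_zero]) le_rfl hne
    by_contra hcon
    rw [not_lt] at hcon
    have hlogH : 0 ≤ logb 2 H := Real.logb_nonneg (by norm_num) hH1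
    have h3 : 4 * logb 2 (16 * X * H) + 3 ≤ 8 * logb 2 H + 19 := by
      have h4 : logb 2 (16 * X * H) ≤ logb 2 (16 * H * H) := by
        apply Real.logb_le_logb_of_le (by norm_num) (by positivity)
        nlinarith
      have h5 := log16 (H := H) hH1
      linarith
    have h4 : 16 * X * H * (4 * logb 2 (16 * X * H) + 3) * (H * 0 + X * |form θ v|) ≤
        16 * X * H * (8 * logb 2 H + 19) * (X * H ^ (-w)) := by
      apply mul_le_mul
      · exact mul_le_mul_of_nonneg_left h3 (by positivity)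
      · rw [mul_zero, zero_add]
        exact mul_le_mul_of_nonneg_left hcon (by linarith)
      · positivity
      · positivity
    have h5 : 16 * X * H * (8 * logb 2 H + 19) * (X * H ^ (-w)) =
        16 * X * X * H ^ (1 - w) * (8 * logb 2 H + 19) := by
      rw [sub_eq_add_neg, Real.rpow_add hH0, Real.rpow_one]; ring
    have h6 := hY₀ H hYH
    linarith

end Pool.Agent.W2helper71.LF
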